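import Pool.Agent.Helper90.MZ.StmtsZ

/-!
# MP_79eb7e_lc, full answer: the basis exists (module ZBE)
-/

set_option autoImplicit false

namespace Pool.Agent.Helper90.MZ

open Pool.Agent.Helper90.TS

variable {V G : Type} [Group G] [MulAction G V] {X : Ctx V G}

theorem zbe_ind_subsingleton {A : Set V} {κ : Type} [Subsingleton κ] (S : κ → Set V) :
    Ind X A S := by
  intro I J hIJ
  rcases I.eq_empty_or_nonempty with h | ⟨i, hi⟩
  · rw [h]
    simp only [Set.mem_empty_iff_false, Set.iUnion_of_empty, Set.iUnion_empty]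
    exact si_empty_left
  · have hJ : J = ∅ := by
      rw [Set.eq_empty_iff_forall_notMem]
      intro j hj
      have : i = j := Subsingleton.elim _ _
      exact Set.disjoint_left.1 hIJ hi (this ▸ hj)
    rw [hJ]
    simp only [Set.mem_empty_iff_false, Set.iUnion_of_empty, Set.iUnion_empty]
    exact si_empty_right

theorem zbe_pt_countable {Q : Set V} (hQ : Q.Countable) :
    {y : Fin 1 → V | Set.range y ⊆ Q}.Countable := by
  refine (hQ.image (fun (v : V) (_ : Fin 1) => v)).mono ?_
  intro y hy
  exact ⟨y 0, hy ⟨0, rfl⟩, funext fun i => by rw [Subsingleton.elim i 0]⟩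

/-- invariance of `Z3` -/
theorem zbe_z3 (h3 : ST_STN) (h4 : ST_INVA) (h5 : ST_INVB) {a : Set V} (ha : a.Countable)
    {y : Fin 1 → V} {c : Set V} {g : G} (hg : g ∈ Fx G (a ∪ Set.range y)) (h : Z3 X a y c) :
    Z3 X a y (tr g c) := by
  obtain ⟨⟨n, f, hf, hD⟩, hS, hr⟩ := h
  have hga := (fx_union.1 hg).1
  have hgy := (fx_union.1 hg).2
  have hyc : (Set.range y).Countable := Set.countable_range y
  have hcc : c.Countable := by rw [← hf]; exact Set.countable_range f
  refine ⟨⟨n, g • f, ?_, ?_⟩, ?_, ?_⟩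
  · rw [← hf, tr_range]
  · have := (h5 V G X g).2.2.1 a (Set.range y) (Fin n) f ha hyc hD
    rwa [tr_fx hga, tr_fx hgy] at this
  · have := (h3 V G X).2.2.2.2.2.1 a (Set.range y ∪ c) g ha (hyc.union hcc) hS
    rwa [tr_fx hga, tr_union, tr_fx hgy] at this
  · intro r hE hs hns
    have hinv := h4 V G X g
    have hinv' := h4 V G X g⁻¹
    have e1 : ∀ p : Ty V, mv g (mv g⁻¹ p) = p := by
      intro p
      have := hinv'.1 p
      rwa [inv_inv] at this
    have hg' : g⁻¹ ∈ Fx G (a ∪ Set.range y) := (Fx G _).inv_mem hg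
    have hga' : g⁻¹ ∈ Fx G a := (Fx G _).inv_mem hga
    obtain ⟨q, hq1, hq2, hq3⟩ := hr (mv g⁻¹ r) (hinv'.2.2.2.2.2.2.2.2.1 r hE) (by
      have := hinv'.2.2.2.2.2.1 _ r hs
      rwa [tr_fx hg'] at this) (by
      intro hcon
      apply hns
      have := hinv.2.2.2.2.2.1 _ _ hcon
      rwa [tr_fx hga, e1] at this)
    refine ⟨mv g q, hinv.2.2.2.2.2.2.2.2.2.1 q hq1, ?_, ?_⟩
    · have := tr_mono g hq2
      rw [tr_union, tr_union, tr_fx hga, tr_fx hgy] at this
      exact this
    · have := hinv.2.2.2.1 _ _ hq3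
      rwa [e1] at this

theorem st_ZBE (h1 : ST_IND) (h2 : ST_ISLB) (h6 : ST_RLB) (h4 : ST_INVA) (h5 : ST_INVB)
    (h3 : ST_STN) (_h7 : ST_MDLB) (h8 : ST_RKZ) (_h9 : ST_SUPU) : ST_ZBE := by
  classical
  intro V G _ _ X Q a d s t hZ
  have hQ : Q.Countable := hZ.mdl.1
  have ha : a.Countable := hZ.afin.countable
  obtain ⟨i1, i2, i3, i4, i5, i6, i7, i8, i9⟩ := h1 V G X a ha
  set P : Set (Fin s × (Fin 1 → V)) := {k | Set.range k.2 ⊆ Q ∧ Rl X (t k.1) a k.2} with hP
  have hPc : P.Countable := by
    have h : (Set.univ ×ˢ {y : Fin 1 → V | Set.range y ⊆ Q} :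
        Set (Fin s × (Fin 1 → V))).Countable :=
      Set.Countable.prod Set.countable_univ (zbe_pt_countable hQ)
    refine h.mono ?_
    intro k hk
    exact ⟨Set.mem_univ _, hk.1⟩
  set 𝒮 : Set (Set (Fin s × (Fin 1 → V))) :=
    {K | K ⊆ P ∧ Ind X a (fun k : K => Set.range k.1.2)} with h𝒮
  have hzorn : ∃ K, Maximal (fun x => x ∈ 𝒮) K := by
    apply zorn_subset
    intro c hc hch
    rcases c.eq_empty_or_nonempty with hce | hcne
    · refine ⟨∅, ⟨Set.empty_subset _, ?_⟩, ?_⟩
      · exact zbe_ind_subsingleton _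
      · intro x hx
        rw [hce] at hx
        exact absurd hx (Set.notMem_empty _)
    · refine ⟨⋃₀ c, ⟨Set.sUnion_subset fun K hK => (hc hK).1, ?_⟩,
        fun K hK => Set.subset_sUnion_of_mem hK⟩
      have hsub : ⋃₀ c ⊆ P := Set.sUnion_subset fun K hK => (hc hK).1
      have : Countable (⋃₀ c : Set _) := (hPc.mono hsub).to_subtype
      apply i9
      · intro i; exact Set.countable_range _
      · intro F
        have hF : ((F.image Subtype.val : Finset (Fin s × (Fin 1 → V))) :
            Set (Fin s × (Fin 1 → V))) ⊆ ⋃ K ∈ c, K := by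
          intro x hx
          rw [Finset.coe_image] at hx
          obtain ⟨y, _, rfl⟩ := hx
          rw [← Set.sUnion_eq_biUnion]
          exact y.2
        obtain ⟨K, hK, hFK⟩ := DirectedOn.exists_mem_subset_of_finset_subset_biUnion
          (f := fun K : Set (Fin s × (Fin 1 → V)) => K) hcne hch.directedOn hF
        have hKI := (hc hK).2
        have hmem : ∀ i : F, (i.1.1 : Fin s × (Fin 1 → V)) ∈ K := by
          intro i
          apply hFK
          rw [Finset.coe_image]
          exact ⟨i.1, i.2, rfl⟩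
        exact i3 K F (fun k : K => Set.range k.1.2) (fun i => ⟨i.1.1, hmem i⟩) (by
          intro i j hij
          apply Subtype.ext
          apply Subtype.ext
          rw [Subtype.mk.injEq] at hij
          exact hij) hKI
  obtain ⟨K, ⟨hKP, hKI⟩, hmax⟩ := hzorn
  have hKc : Countable K := (hPc.mono hKP).to_subtype
  -- the sets `c`
  have hcex : ∀ k : K, ∃ c : Set V, c ⊆ Q ∧ Z3 X a k.1.2 c := by
    intro k
    have hk := hKP k.2
    obtain ⟨c0, hc0⟩ := hZ.z3 k.1.1 k.1.2 hk.2
    obtain ⟨n, f, hf, D, hD1, hD2, hD3⟩ := hc0.1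
    have hAc : (a ∪ Set.range k.1.2).Countable := ha.union (Set.countable_range _)
    have hisl : Isl X (a ∪ Set.range k.1.2) f := by
      refine ⟨D, hD1, hD2, fun x hx => ?_⟩
      have := (hD3 ∅ Set.countable_empty (by exact si_empty_left)).2 x hx
      rwa [Set.union_empty] at this
    obtain ⟨f', hf', g, hg, hgf⟩ := (h2 V G X (a ∪ Set.range k.1.2) hAc (Fin n) f).2.2.2.2.1 Q
      hZ.mdl (Set.union_subset hZ.aQ hk.1) hisl
    refine ⟨tr g c0, ?_, zbe_z3 h3 h4 h5 ha hg hc0⟩
    rw [← hf, tr_range, hgf]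
    exact hf'
  choose c hcQ hcZ using hcex
  refine ⟨K, hKc, fun k => k.1.1, fun k => k.1.2, c, ?_⟩
  have hcc : ∀ k, (c k).Countable := fun k => hQ.mono (hcQ k)
  have hind : Ind X a (fun k : K => Set.range k.1.2 ∪ c k) := by
    apply i5 K (fun k : K => Set.range k.1.2) _ (fun k => Set.countable_range _)
      (fun k => (Set.countable_range _).union (hcc k)) hKI
    intro k
    right
    refine ⟨Set.subset_union_left, fun Y hY hSI => ?_⟩
    obtain ⟨n, f, hf, D, hD1, hD2, hD3⟩ := (hcZ k).1
    rw [← hf]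
    exact (hD3 Y hY hSI).1
  have hWc : (WW a (fun k : K => k.1.2) c).Countable := by
    unfold WW
    exact ha.union (Set.countable_iUnion fun k => (Set.countable_range _).union (hcc k))
  refine ⟨⟨hZ.afin, fun j => ⟨(hZ.t1 j).1, (hZ.t1 j).2.1⟩, hZ.t2, fun k => (hKP k.2).2,
    hind, hcZ⟩, fun k => ⟨(hKP k.2).1, hcQ k⟩, ?_⟩
  intro j y hyQ hRl
  have hSRj := (hZ.t1 j).1
  have haj := (hZ.t1 j).2.1
  set W := WW a (fun k : K => k.1.2) c with hW
  have haW : a ⊆ W := Set.subset_union_left
  have hbase : (t j).A ∪ a = a := Set.union_eq_self_of_subset_left haj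
  have hrl := h6 V G X (t j) hSRj
  have hRa : Rl X (t j) a y :=
    (hrl W hWc).2.2.1 y hRl a (haW.trans Set.subset_union_right)
  have hSIW : SI X a (Set.range y) W := by
    have := (hrl a ha).2.2.2.2.1 y W hWc (by rwa [Set.union_eq_self_of_subset_left haW])
    rwa [hbase] at this
  have hyK : (j, y) ∈ K := by
    by_contra hnot
    have hnew : insert (j, y) K ∈ 𝒮 := by
      refine ⟨Set.insert_subset ⟨hyQ, hRa⟩ hKP, ?_⟩
      have hI2 := i8 K Unit (fun k : K => Set.range k.1.2) (fun _ => Set.range y)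
        (fun k => Set.countable_range _) (fun k => Set.countable_range _) hKI
        (zbe_ind_subsingleton _) (by
          have hsub : (⋃ k : K, Set.range k.1.2) ⊆ W := by
            refine Set.iUnion_subset fun k => ?_
            refine Set.Subset.trans ?_ Set.subset_union_right
            exact Set.subset_iUnion_of_subset k Set.subset_union_left
          have e : (⋃ _ : Unit, Set.range y) = Set.range y := Set.iUnion_const _
          rw [e]
          have hUc : (⋃ k : K, Set.range k.1.2).Countable := hWc.mono hsub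
          exact si_symm ha (Set.countable_range y) hUc
            (si_right ha (Set.countable_range y) hWc hsub hSIW))
      have hI3 := i3 (K ⊕ Unit) (insert (j, y) K : Set _)
        (Sum.elim (fun k : K => Set.range k.1.2) (fun _ => Set.range y))
        (fun k => if h : k.1 ∈ K then Sum.inl ⟨k.1, h⟩ else Sum.inr ()) (by
          intro k k' hkk
          simp only at hkk
          apply Subtype.ext
          by_cases hk : k.1 ∈ K <;> by_cases hk' : k'.1 ∈ K
          · rw [dif_pos hk, dif_pos hk'] at hkk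
            rw [Sum.inl.injEq, Subtype.mk.injEq] at hkk
            exact hkk
          · rw [dif_pos hk, dif_neg hk'] at hkk
            exact absurd hkk (by simp)
          · rw [dif_neg hk, dif_pos hk'] at hkk
            exact absurd hkk (by simp)
          · have e1 : k.1 = (j, y) := (Set.mem_insert_iff.1 k.2).resolve_right hk
            have e2 : k'.1 = (j, y) := (Set.mem_insert_iff.1 k'.2).resolve_right hk'
            rw [e1, e2]) hI2
      have e : (fun k : (insert (j, y) K : Set (Fin s × (Fin 1 → V))) =>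
          (Sum.elim (fun k : K => Set.range k.1.2) (fun _ => Set.range y) :
            K ⊕ Unit → Set V)
          (if h : k.1 ∈ K then Sum.inl ⟨k.1, h⟩ else Sum.inr ())) =
          fun k : (insert (j, y) K : Set (Fin s × (Fin 1 → V))) => Set.range k.1.2 := by
        funext k
        by_cases hk : k.1 ∈ K
        · rw [dif_pos hk]; rfl
        · rw [dif_neg hk]
          have e1 : k.1 = (j, y) := (Set.mem_insert_iff.1 k.2).resolve_right hk
          rw [e1]; rfl
      rwa [e] at hI3
    have := hmax hnew (Set.subset_insert _ _)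
    exact hnot (this (Set.mem_insert _ _))
  -- contradiction
  have hyW : Set.range y ⊆ W := by
    refine Set.Subset.trans ?_ Set.subset_union_right
    exact Set.subset_iUnion_of_subset (⟨(j, y), hyK⟩ : K) Set.subset_union_left
  have hrk := ((hrl W hWc).2.2.2.2.2.2.2.2 y hRl).1
  have hAWc : ((t j).A ∪ W).Countable := by
    rw [Set.union_eq_self_of_subset_left (haj.trans haW)]
    exact hWc
  have h0 : X.rk ((t j).A ∪ W) y = 0 := by
    rw [h8 V G X _ hAWc]
    intro i
    have hm : y i ∈ (t j).A ∪ W := Or.inr (hyW ⟨i, rfl⟩)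
    show {e' | ∃ g ∈ Fx G ((t j).A ∪ W), g • y i = e'}.Finite
    refine (Set.finite_singleton (y i)).subset ?_
    rintro _ ⟨g, hg, rfl⟩
    exact hg _ hm
  exact hSRj.nal (hrk ▸ h0)

end Pool.Agent.Helper90.MZ
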